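import Mathlib
import Pool.Agent.Helper10.UC.Defs
import Pool.Agent.H69Z.Bim.Defs
import Pool.Agent.H69Z.Bim.Final

open Topology
open scoped Manifold ContDiff
open Pool.Agent.Helper10.UC Pool.Agent.H69Z.Bim

namespace Pool.Agent.Results.MP_14c953_ag.ANotBimeromorphic

universe u v

/-- Negative answer to Q1: there is a compact algebraic surface `M` with infinite fundamental
group whose universal cover (any simply connected complex surface `X` with a holomorphic covering
map onto `M`) is not bimeromorphic to any domain of any compact complex manifold `N`. -/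
theorem result : ∃ (ι : Type) (_ : Fintype ι) (M : Set (PP ι)),
    IsCompactAlgebraicManifold M 2 ∧ (∀ x : M, Infinite (FundamentalGroup M x)) ∧
    ∀ (X : Type u) [TopologicalSpace X] [T2Space X] [ChartedSpace (Fin 2 → ℂ) X]
      [IsManifold 𝓘(ℂ, Fin 2 → ℂ) ω X] [SimplyConnectedSpace X] (p : X → M),
      IsCoveringMap p → IsHolToProj 2 (fun x => (p x : PP ι)) →
      ∀ (k : ℕ) (N : Type v) [TopologicalSpace N] [T2Space N] [CompactSpace N]
        [ChartedSpace (Fin k → ℂ) N] [IsManifold 𝓘(ℂ, Fin k → ℂ) ω N]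
        (Ω : TopologicalSpace.Opens N), IsConnected (Ω : Set N) → ¬ Bimeromorphic 2 k X Ω :=
  ⟨Ix, inferInstance, MM,
    ⟨⟨eqsM, eqsM_homog, rfl⟩, pathM.isConnected, smoothM⟩, infinite_piM,
    fun _ _ _ _ _ _ _ hp hol _ _ _ _ _ _ _ Ω hΩ => not_bimeromorphic hp hol Ω hΩ⟩

end Pool.Agent.Results.MP_14c953_ag.ANotBimeromorphic
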